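import Pool.Agent.Q106.GMM.Poly
import Pool.Agent.Q106.GMM.Cst
import Pool.Agent.Q120.GM.Exists

/-!
# Simultaneous values `f(m) + h` of polynomials in the sieved models of the primes

`Q` is the level: the random set contains each `n` coprime to `Q` independently with
probability `min(1, (Q/φ(Q))/log n)`, and no other `n`. For `Q = 1` this is the model of Cramér.

`PH S f H` is the set of the `m` such that all `f(m) + h`, `h ∈ H`, lie in `S` (`f = X^2 - 2`, `H = {0}` in the question).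
Almost surely, for all polynomials `f` of degree `d ≥ 2` and all `H` with `k` elements at once, its counting function is
asymptotic to `(S_Q(f,H) / d^k) x / log^k x`, and its maximal gaps are asymptotic to `(d^k / S_Q(f,H)) log^(k+1) x`.
For `f = X^2 - 2`, `H = {0}` and `Q` the product of the primes up to `z` the constant `S_Q / 2` is the partial product
over the odd primes up to `z` of the constant `C` of the question.
-/

set_option autoImplicit false

namespace Pool.Agent.Results.MP_0b748d_nt.AllPolynomialsInTheModels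

open MeasureTheory Filter Pool.Agent.Q120.GM Pool.Agent.Q106.GMM Polynomial
open scoped Topology NumberTheorySymbols

/-- The law for all polynomials of degree at least two with positive leading coefficient, and all finite sets `H`
of shifts. `k = |H|`. -/
structure Law (Q : ℕ) (S : Set ℕ) : Prop where
  count : ∀ (f : ℤ[X]) (H : Finset ℕ), 2 ≤ f.natDegree → 0 < f.leadingCoeff → H.Nonempty → 0 < singP Q f H →
    Tendsto (fun x : ℕ => (Set.ncard {m | m < x ∧ m ∈ PH S f H} : ℝ) / ((x : ℝ) / Real.log x ^ H.card)) atTop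
      (𝓝 (singP Q f H / (f.natDegree : ℝ) ^ H.card))
  upper : ∀ (f : ℤ[X]) (H : Finset ℕ), 2 ≤ f.natDegree → 0 < f.leadingCoeff → H.Nonempty → 0 < singP Q f H →
    ∀ ε : ℝ, 0 < ε → ∀ᶠ x : ℕ in atTop, ∃ m ∈ PH S f H, x < m ∧
      (m : ℝ) ≤ x + (1 + ε) * ((f.natDegree : ℝ) ^ H.card / singP Q f H * Real.log x ^ (H.card + 1))
  lower : ∀ (f : ℤ[X]) (H : Finset ℕ), 2 ≤ f.natDegree → 0 < f.leadingCoeff → H.Nonempty → 0 < singP Q f H →
    ∀ ε : ℝ, 0 < ε → ∀ᶠ x : ℕ in atTop, ∃ y : ℕ, x ≤ y ∧ y ≤ 2 * x ∧ ∀ m : ℕ, y < m →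
      (m : ℝ) ≤ y + (1 - ε) * ((f.natDegree : ℝ) ^ H.card / singP Q f H * Real.log y ^ (H.card + 1)) → m ∉ PH S f H

/-- The polynomial of the question has a positive constant at every level. -/
theorem question_pos (Q : ℕ) (hQ : 1 ≤ Q) : 0 < singP Q (X ^ 2 - 2) {0} := by
  classical
  have hq := qq_pos hQ
  have hQ0 : (0 : ℝ) < Q := by exact_mod_cast hQ
  have h1 : 0 < UQ Q := by
    unfold UQ
    have : NeZero Q := ⟨by omega⟩
    rw [Nat.card_pos_iff]
    refine ⟨?_, inferInstance⟩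
    obtain ⟨r, hr⟩ : ∃ r, r = ordCompl[2] Q := ⟨_, rfl⟩
    have h2r : ¬ 2 ∣ r := by
      rw [hr]
      exact Nat.not_dvd_ordCompl Nat.prime_two (by omega)
    refine ⟨⟨((r : ℤ) : ZMod Q), ?_⟩⟩
    have h2 : (((r : ℤ) : ZMod Q)) ^ 2 - 2 = (((r : ℤ) ^ 2 - 2 : ℤ) : ZMod Q) := by
      push_cast
      ring
    rw [h2, ZMod.coe_int_isUnit_iff_isCoprime, Int.isCoprime_iff_gcd_eq_one]
    by_contra hcon
    obtain ⟨p, hp, hpd⟩ := Nat.exists_prime_and_dvd hcon
    have hpQ : p ∣ Q := by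
      have h3 := hpd.trans (Int.gcd_dvd_natAbs_left _ _)
      simpa using h3
    have hpr2 : (p : ℤ) ∣ (r : ℤ) ^ 2 - 2 := by
      have h3 : p ∣ ((r : ℤ) ^ 2 - 2).natAbs := hpd.trans (Int.gcd_dvd_natAbs_right _ _)
      exact Int.natCast_dvd.2 h3
    by_cases hp2 : p = 2
    · subst hp2
      have h3 : (2 : ℤ) ∣ (r : ℤ) ^ 2 := by
        have h4 : ((r : ℤ) ^ 2) = ((r : ℤ) ^ 2 - 2) + 2 := by ring
        rw [h4]
        exact dvd_add (by exact_mod_cast hpr2) (dvd_refl 2)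
      have h5 := Int.prime_two.dvd_of_dvd_pow h3
      exact h2r (by exact_mod_cast h5)
    · have h3 : 2 ^ Q.factorization 2 * r = Q := by
        rw [hr]
        exact Nat.ordProj_mul_ordCompl_eq_self Q 2
      rw [← h3] at hpQ
      have hpr : p ∣ r := by
        rcases hp.dvd_mul.1 hpQ with h4 | h4
        · exact absurd ((Nat.prime_dvd_prime_iff_eq hp Nat.prime_two).1 (hp.dvd_of_dvd_pow h4)) hp2
        · exact h4
      have h4 : (p : ℤ) ∣ (r : ℤ) ^ 2 := dvd_pow (by exact_mod_cast hpr) (by norm_num)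
      have h5 : (p : ℤ) ∣ 2 := by
        have h6 : (2 : ℤ) = (r : ℤ) ^ 2 - ((r : ℤ) ^ 2 - 2) := by ring
        rw [h6]
        exact dvd_sub h4 hpr2
      exact hp2 ((Nat.prime_dvd_prime_iff_eq hp Nat.prime_two).1 (by exact_mod_cast h5))
  have h2 : (0 : ℝ) < (((Finset.range Q).filter (GC Q (X ^ 2 - 2) {0})).card : ℝ) := by
    rw [gc_card hQ]
    exact_mod_cast h1
  unfold singP
  positivity

/-- The constant at the primorial levels. -/
theorem question_const (z : ℕ) : singP (primorial z) (X ^ 2 - 2) {0} =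
    ∏ p ∈ (Finset.range (z + 1)).filter (fun p => p.Prime ∧ p ≠ 2), (1 - (J(2 | p) : ℝ) / ((p : ℝ) - 1)) := by
  unfold primorial
  rw [singP_prod _ (fun p hp => (Finset.mem_filter.1 hp).2), Finset.filter_filter]

/-- The pair `m ^ 2 + 1`, `m ^ 2 + 3` has a positive constant at every level. -/
theorem pair_pos (Q : ℕ) (hQ : 1 ≤ Q) : 0 < singP Q (X ^ 2) {1, 3} := by
  classical
  have hq := qq_pos hQ
  have hQ0 : (0 : ℝ) < Q := by exact_mod_cast hQ
  obtain ⟨r, hr⟩ : ∃ r, r = ordCompl[3] Q := ⟨_, rfl⟩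
  have h3r : ¬ 3 ∣ r := by
    rw [hr]
    exact Nat.not_dvd_ordCompl Nat.prime_three (by omega)
  have hpr : ∀ p : ℕ, p.Prime → p ∣ Q → p ≠ 3 → p ∣ r := by
    intro p hp hpQ hp3
    have h1 : 3 ^ Q.factorization 3 * r = Q := by
      rw [hr]
      exact Nat.ordProj_mul_ordCompl_eq_self Q 3
    rw [← h1] at hpQ
    rcases hp.dvd_mul.1 hpQ with h2 | h2
    · exact absurd ((Nat.prime_dvd_prime_iff_eq hp Nat.prime_three).1 (hp.dvd_of_dvd_pow h2)) hp3
    · exact h2
  have hmod : r % 3 = 1 ∨ r % 3 = 2 := by omega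
  have hcop : ∀ h : ℕ, (h = 1 ∨ h = 3) → (r ^ 2 + h).Coprime Q := by
    intro h hh
    rw [Nat.coprime_iff_gcd_eq_one]
    by_contra hcon
    obtain ⟨p, hp, hpd⟩ := Nat.exists_prime_and_dvd hcon
    have hpQ : p ∣ Q := hpd.trans (Nat.gcd_dvd_right _ _)
    have hpr2 : p ∣ r ^ 2 + h := hpd.trans (Nat.gcd_dvd_left _ _)
    by_cases hp3 : p = 3
    · subst hp3
      have h1 : (r ^ 2 + h) % 3 = 0 := Nat.mod_eq_zero_of_dvd hpr2
      rw [Nat.add_mod, Nat.pow_mod] at h1
      rcases hmod with h2 | h2 <;> rcases hh with h3 | h3 <;> rw [h2, h3] at h1 <;> norm_num at h1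
    · have h1 : p ∣ r ^ 2 := dvd_pow (hpr p hp hpQ hp3) (by norm_num)
      have h2 : p ∣ h := (Nat.dvd_add_right h1).1 hpr2
      rcases hh with h3 | h3
      · rw [h3] at h2
        exact hp.one_lt.ne' (Nat.dvd_one.1 h2)
      · rw [h3] at h2
        exact hp3 ((Nat.prime_dvd_prime_iff_eq hp Nat.prime_three).1 h2)
  have hgc : GC Q (X ^ 2) {1, 3} r := by
    intro h hh
    rw [Finset.mem_insert, Finset.mem_singleton] at hh
    have h1 := hcop h hh
    rw [← Nat.isCoprime_iff_coprime] at h1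
    simpa using h1
  have hgc2 : GC Q (X ^ 2) {1, 3} (r % Q) := by
    have key : ∀ j m : ℕ, GC Q (X ^ 2) {1, 3} (m + j * Q) ↔ GC Q (X ^ 2) {1, 3} m := by
      intro j m
      induction j with
      | zero => simp
      | succ j ih =>
        rw [show m + (j + 1) * Q = (m + j * Q) + Q by ring, gc_periodic]
        exact ih
    have h1 : r = r % Q + (r / Q) * Q := by
      rw [mul_comm]
      exact (Nat.mod_add_div r Q).symm
    rw [h1] at hgc
    exact (key _ _).1 hgc
  have hcard : 0 < ((Finset.range Q).filter (GC Q (X ^ 2) {1, 3})).card := by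
    apply Finset.card_pos.2
    exact ⟨r % Q, Finset.mem_filter.2 ⟨Finset.mem_range.2 (Nat.mod_lt _ (by omega)), hgc2⟩⟩
  have hcard' : (0 : ℝ) < (((Finset.range Q).filter (GC Q (X ^ 2) {1, 3})).card : ℝ) := by exact_mod_cast hcard
  unfold singP
  positivity

/-- **Bateman–Horn asymptotics and maximal gaps for all polynomials of degree at least two, in the models.** -/
theorem result : (∀ Q : ℕ, IsModel (prodMeasure (level Q)) (level Q) (trueSet (ι := ℕ))) ∧
    (∀ Q : ℕ, 1 ≤ Q → 0 < singP Q (X ^ 2 - 2) {0} ∧ 0 < singP Q (X ^ 2) {1, 3}) ∧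
    (∀ z : ℕ, singP (primorial z) (X ^ 2 - 2) {0} =
      ∏ p ∈ (Finset.range (z + 1)).filter (fun p => p.Prime ∧ p ≠ 2), (1 - (J(2 | p) : ℝ) / ((p : ℝ) - 1))) ∧
    ∀ (Ω : Type) (_ : MeasurableSpace Ω) (μ : Measure Ω) (_ : IsProbabilityMeasure μ) (A : Ω → Set ℕ) (Q : ℕ),
      1 ≤ Q → IsModel μ (level Q) A → ∀ᵐ ω ∂μ, Law Q (A ω) := by
  refine ⟨fun Q => isModel (level Q) (level_nonneg Q) (level_le_one Q), fun Q hQ => ⟨question_pos Q hQ, pair_pos Q hQ⟩,
    question_const, ?_⟩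
  intro Ω _ μ _ A Q hQ hA
  haveI := countable_poly
  have h1 : ∀ᵐ ω ∂μ, ∀ fH : ℤ[X] × Finset ℕ, 2 ≤ fH.1.natDegree → 0 < fH.1.leadingCoeff → fH.2.Nonempty →
      0 < singP Q fH.1 fH.2 → PLaw Q fH.1 fH.2 (A ω) := by
    rw [ae_all_iff]
    rintro ⟨f, H⟩
    by_cases h : 2 ≤ f.natDegree ∧ 0 < f.leadingCoeff ∧ H.Nonempty ∧ 0 < singP Q f H
    · filter_upwards [poly_law hA hQ h.1 h.2.1 h.2.2.1 h.2.2.2] with ω hω _ _ _ _
      exact hω
    · filter_upwards with ω h1 h2 h3 h4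
      exact absurd ⟨h1, h2, h3, h4⟩ h
  filter_upwards [h1] with ω hω
  exact ⟨fun f H a b c d => (hω (f, H) a b c d).count, fun f H a b c d => (hω (f, H) a b c d).upper,
    fun f H a b c d => (hω (f, H) a b c d).lower⟩

end Pool.Agent.Results.MP_0b748d_nt.AllPolynomialsInTheModels
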