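import Pool.Agent.Q236.EV.GapsSys

set_option autoImplicit false

/-!
# Consecutive gaps between almost primes, and for polynomials: independent exponential laws, uniformly

Let `F` be a system of `k` irreducible nonconstant polynomials of degrees at most `D` with integral
coefficients of absolute value at most `X ^ E`, without fixed prime divisor, such that no `f_i` is `± f_j` shifted by
`1 ≤ t ≤ X ^ η`; for instance `F = (x)`. Call `m` good if no prime `p ≤ X ^ (1 / r)` divides any of the `f_j (m)`: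
then the `f_j (m)` have a bounded number of prime factors, if `m ≤ X`. Let `V`, the density of the good numbers, be the
product of `1 - ω_F(p) / p` over the primes `p ≤ X ^ (1 / r)`; it has the order `1 / log ^ k X` for fixed `F`, and we
assume `∏_{p ≤ X} (1 - ω_F(p) / p) ≤ C / log X`.

Cramér's model predicts that consecutive gaps are asymptotically independent, with exponential laws. This is proved for
the gaps between consecutive good numbers, in all intervals `(Z, Z + Y]`, `Y ≥ X ^ θ`: the number of the good `n` in the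
interval for which the next `m` gaps exceed `t_1, …, t_m` is `Y V exp (- (t_1 + … + t_m) V)` up to `ε Y V`,
simultaneously for all `t_1, …, t_m` and uniformly in ALL systems, if `r ≥ r₀` and `X` is large.

Method. The integers after `n` are divided in cells of length `κ / V`. The conditional void probabilities of all unions of
cells, given that `n` is good, are found from binomial moments (conditional Poisson law of `Pool.Agent.Q236.CP`);
they give the probabilities of the patterns of hit and void cells, and cells with two good numbers are rare.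
-/

namespace Pool.Agent.Results.MP_0b748d_nt.ConsecutiveGapsLaw

open Finset Filter Polynomial

/-- The number `ω_F(p)` of the residues `n` modulo `p` for which `p` divides the product of the `f_j (n)`. -/
def ω {k : ℕ} (F : Fin k → ℤ[X]) (p : ℕ) : ℕ :=
  ((Finset.range p).filter (fun n : ℕ => (p : ℤ) ∣ ∏ i, (F i).eval (n : ℤ))).card

/-- The product of `1 - ω_F(p) / p` over the primes `p ≤ y`. -/
noncomputable def W {k : ℕ} (y : ℕ) (F : Fin k → ℤ[X]) : ℝ :=
  ∏ p ∈ (Finset.Icc 1 y).filter Nat.Prime, (1 - (ω F p : ℝ) / p)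

/-- The density of the good numbers, the product over the primes `p ≤ X ^ (1 / r)`. -/
noncomputable def V {k : ℕ} (X r : ℕ) (F : Fin k → ℤ[X]) : ℝ := W ⌊(X : ℝ) ^ (1 / (r : ℝ))⌋₊ F

/-- A system of irreducible nonconstant polynomials of degrees at most `D`, with coefficients at most `H`,
without fixed prime divisor, and such that no `f_i` is `± f_j` shifted by `1 ≤ t ≤ U`. -/
structure System {k : ℕ} (D : ℕ) (H U : ℝ) (F : Fin k → ℤ[X]) : Prop where
  irr : ∀ i, Irreducible (F i)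
  deg : ∀ i, (F i).natDegree ≠ 0
  degD : ∀ i, (F i).natDegree ≤ D
  height : ∀ i n, |(((F i).coeff n : ℤ) : ℝ)| ≤ H
  adm : ∀ p : ℕ, p.Prime → ω F p < p
  shift : ∀ i j, ∀ t : ℕ, 1 ≤ t → (t : ℝ) ≤ U →
    F i ≠ (F j).comp (X + C (t : ℤ)) ∧ F i ≠ -(F j).comp (X + C (t : ℤ))

/-- No prime `p ≤ X ^ (1 / r)` divides any of the `f_j (m)`. -/
def Good {k : ℕ} (X : ℕ) (F : Fin k → ℤ[X]) (r m : ℕ) : Prop :=
  ∀ p : ℕ, p.Prime → (p : ℝ) ≤ (X : ℝ) ^ (1 / (r : ℝ)) → ∀ i, ¬ (p : ℤ) ∣ (F i).eval (m : ℤ)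

/-- `b` is the next good number after `a`. -/
def Next {k : ℕ} (X : ℕ) (F : Fin k → ℤ[X]) (r a b : ℕ) : Prop :=
  a < b ∧ Good X F r b ∧ ∀ c : ℕ, a < c → c < b → ¬ Good X F r c

open Classical in
/-- The number of the good `n` in `(Z, Z + Y]` for which the next good numbers
`n = g 0 < g 1 < … < g m` satisfy `g (i + 1) - g i > t i` for `i < m`. -/
noncomputable def G {k : ℕ} (X : ℕ) (F : Fin k → ℤ[X]) (r m : ℕ) (t : ℕ → ℕ) (Z Y : ℕ) : ℕ :=
  ((Finset.Ioc Z (Z + Y)).filter (fun n => Good X F r n ∧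
    ∃ g : ℕ → ℕ, g 0 = n ∧ ∀ i < m, Next X F r (g i) (g (i + 1)) ∧ g i + t i < g (i + 1))).card

open Pool.Agent.W123.RU Pool.Agent.H373R2.T7 Pool.Agent.TH464.PO Pool.Agent.W123.RP Pool.Agent.Q236.GW
open Pool.Agent.Y879.GL Pool.Agent.Q236.EV
open Pool.Agent.W123.RU.Poly (Q)

lemma Q_iff {k : ℕ} (F : Fin k → ℤ[X]) (p m : ℕ) (hp : p.Prime) :
    Q F p m ↔ (p : ℤ) ∣ ∏ i, (F i).eval (m : ℤ) := by
  have hpi : Prime (p : ℤ) := Nat.prime_iff_prime_int.1 hp
  unfold Q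
  rw [hpi.dvd_finsetProd_iff]
  exact ⟨fun ⟨i, hi⟩ => ⟨i, Finset.mem_univ i, hi⟩, fun ⟨i, _, hi⟩ => ⟨i, hi⟩⟩

lemma nu_eq {k : ℕ} (F : Fin k → ℤ[X]) (p : ℕ) (hp : p.Prime) : nuB (Q F) p = ω F p := by
  unfold nuB ω
  exact card_iff _ _ (fun m _ => Q_iff F p m hp)

lemma W_eq {k : ℕ} (y : ℕ) (F : Fin k → ℤ[X]) : Vq (Q F) y = W y F := by
  unfold Vq W
  have h1 : pz y = (Finset.Icc 1 y).filter Nat.Prime := by
    ext p
    rw [mem_pz, Finset.mem_filter, Finset.mem_Icc]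
    exact ⟨fun h => ⟨⟨h.2.one_lt.le, h.1⟩, h.2⟩, fun h => ⟨h.1.2, h.2⟩⟩
  rw [h1]
  apply Finset.prod_congr rfl
  intro p hp
  rw [nu_eq F p (Finset.mem_filter.1 hp).2]

lemma good_iff {k : ℕ} (X : ℕ) (F : Fin k → ℤ[X]) (r m : ℕ) :
    Sf (Q F) ⌊(X : ℝ) ^ (1 / (r : ℝ))⌋₊ m ↔ Good X F r m := by
  have h0 : (0 : ℝ) ≤ (X : ℝ) ^ (1 / (r : ℝ)) := by positivity
  constructor
  · intro h q hq hqn i hd
    exact h q (mem_pz.2 ⟨Nat.le_floor hqn, hq⟩) ⟨i, hd⟩
  · rintro h q hq ⟨i, hi⟩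
    exact h q (mem_pz.1 hq).2 (mem_pz' h0 hq) i hi

lemma toUS {k D : ℕ} {H U : ℝ} {F : Fin k → ℤ[X]} (h : System D H U F) : US k D H U F where
  irr := h.irr
  deg := h.deg
  degD := h.degD
  hgt := h.height
  adm p hp := by
    obtain ⟨m, _, hm⟩ := nu_exists (Q F) p (by rw [nu_eq F p hp]; exact h.adm p hp)
    exact ⟨m, fun i hi => hm ⟨i, hi⟩⟩
  tr i j t ht htU hass := by
    rcases assoc_cases hass with h1 | h1
    · exact (h.shift i j t ht htU).1 h1
    · exact (h.shift i j t ht htU).2 h1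

lemma few (X r K m : ℕ) (hr : 1 ≤ r) (hX : 2 ^ r ≤ X) (hm : 0 < m) (hmX : m ≤ X ^ K)
    (h : ∀ p : ℕ, p.Prime → p ∣ m → (X : ℝ) ^ (1 / (r : ℝ)) < (p : ℝ)) :
    m.primeFactorsList.length ≤ K * r := by
  have hr0 : (r : ℝ) ≠ 0 := by exact_mod_cast (by omega : r ≠ 0)
  have hX1 : (1 : ℝ) ≤ X := by
    have : 1 ≤ 2 ^ r := Nat.one_le_two_pow
    exact_mod_cast this.trans hX
  have hz1 : 1 ≤ (X : ℝ) ^ (1 / (r : ℝ)) := Real.one_le_rpow hX1 (by positivity)
  apply length_le m (K * r) (by omega) _ h _ hz1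
  have e : ((X : ℝ) ^ (1 / (r : ℝ))) ^ r = X := by
    rw [← Real.rpow_natCast, ← Real.rpow_mul (by linarith), one_div, inv_mul_cancel₀ hr0, Real.rpow_one]
  have hmX' : (m : ℝ) ≤ (X : ℝ) ^ K := by exact_mod_cast hmX
  rw [pow_succ, mul_comm K r, pow_mul, e]
  have h0 : (0 : ℝ) ≤ (X : ℝ) ^ K := by positivity
  nlinarith

lemma gap_iff {k : ℕ} (X : ℕ) (F : Fin k → ℤ[X]) (r m : ℕ) : ∀ (t : ℕ → ℕ) (n : ℕ),
    Gap (Good X F r) m t n ↔
      ∃ g : ℕ → ℕ, g 0 = n ∧ ∀ i < m, Next X F r (g i) (g (i + 1)) ∧ g i + t i < g (i + 1) := by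
  induction m with
  | zero =>
    intro t n
    constructor
    · intro _
      exact ⟨fun _ => n, rfl, fun i hi => absurd hi (Nat.not_lt_zero i)⟩
    · intro _
      trivial
  | succ m ih =>
    intro t n
    constructor
    · rintro ⟨g', ⟨h1, h2, h3⟩, h4, h5⟩
      obtain ⟨g, hg0, hg⟩ := (ih (fun i => t (i + 1)) g').1 h5
      refine ⟨fun i => if i = 0 then n else g (i - 1), by simp, ?_⟩
      intro i hi
      rcases i with _ | i
      · simp only [if_true, zero_add, one_ne_zero, if_false, Nat.sub_self]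
        rw [hg0]
        exact ⟨⟨h1, h2, fun c hc1 hc2 => h3 c (Finset.mem_Ioo.2 ⟨hc1, hc2⟩)⟩, h4⟩
      · simp only [Nat.add_eq_zero_iff, one_ne_zero, and_false, if_false, Nat.add_sub_cancel]
        exact hg i (by omega)
    · rintro ⟨g, hg0, hg⟩
      obtain ⟨⟨h1, h2, h3⟩, h4⟩ := hg 0 (by omega)
      rw [hg0] at h1 h3 h4
      refine ⟨g 1, ⟨h1, h2, fun c hc => h3 c (Finset.mem_Ioo.1 hc).1 (Finset.mem_Ioo.1 hc).2⟩, h4, ?_⟩
      rw [ih]
      exact ⟨fun i => g (i + 1), rfl, fun i hi => hg (i + 1) (by omega)⟩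

/-- **Consecutive gaps: independent exponential laws, uniformly.** -/
theorem result (k D : ℕ) :
    (1 ≤ k → ∀ F : Fin k → ℤ[X], (∀ i, Irreducible (F i)) → (∀ i, 0 < (F i).natDegree) →
      (∀ i, 0 < (F i).leadingCoeff) → Function.Injective F → (∀ p : ℕ, p.Prime → ω F p < p) →
      ∃ c C : ℝ, 0 < c ∧ 0 < C ∧ ∀ y : ℕ, 3 ≤ y → c / Real.log y ^ k ≤ W y F ∧ W y F ≤ C / Real.log y ^ k) ∧
    (∀ (X r K : ℕ) (F : Fin k → ℤ[X]) (m : ℕ), 1 ≤ r → 2 ^ r ≤ X → Good X F r m →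
      ∀ i, 0 < ((F i).eval (m : ℤ)).natAbs → ((F i).eval (m : ℤ)).natAbs ≤ X ^ K →
        ((F i).eval (m : ℤ)).natAbs.primeFactorsList.length ≤ K * r) ∧
    ∀ E η θ : ℝ, 0 < E → 0 < η → 0 < θ → ∀ (m : ℕ) (ε : ℝ), 0 < ε → ∃ r₀ : ℕ, 2 ≤ r₀ ∧
      ∀ r : ℕ, r₀ ≤ r → ∀ C : ℝ, 0 < C → ∀ᶠ X : ℕ in atTop, ∀ F : Fin k → ℤ[X],
        System D ((X : ℝ) ^ E) ((X : ℝ) ^ η) F → W X F ≤ C / Real.log X →
        ∀ Z Y : ℕ, (X : ℝ) ^ θ ≤ Y → ∀ t : ℕ → ℕ,
          |(G X F r m t Z Y : ℝ) -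
            Y * V X r F * Real.exp (-((∑ i ∈ Finset.range m, (t i : ℝ)) * V X r F))| ≤ ε * (Y * V X r F) := by
  refine ⟨?_, ?_, ?_⟩
  · intro hk F hirr hdeg hlead hinj hadm
    have hsys : Pool.Agent.W123.RU.Poly.Sys F := ⟨hirr, hdeg, hlead, hinj, fun p hp => by
      obtain ⟨m, _, hm⟩ := nu_exists (Q F) p (by rw [nu_eq F p hp]; exact hadm p hp)
      exact ⟨m, fun i hi => hm ⟨i, hi⟩⟩⟩
    have : Nonempty (Fin k) := ⟨⟨0, by omega⟩⟩
    obtain ⟨v, Cv, hv, hCv, hV⟩ := Pool.Agent.W123.RU.Poly.V_bounds F hsys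
    refine ⟨v, Cv, hv, hCv, fun X hX => ?_⟩
    have h1 := hV X hX
    rw [Fintype.card_fin, W_eq] at h1
    exact h1
  · intro X r K F m hr hX hG i h1 h2
    apply few X r K _ hr hX h1 h2
    intro p hp hd
    by_contra hcon
    rw [not_lt] at hcon
    exact hG p hp hcon i (Int.natCast_dvd.2 hd)
  · intro E η θ hE hη hθ m ε hε
    obtain ⟨r₀, hr₀, h⟩ := gaps_sys k D E η θ hE hη hθ m ε hε
    refine ⟨r₀, hr₀, ?_⟩
    intro r hr C hC
    filter_upwards [h r hr C hC] with X hX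
    intro F hF hV Z Y hY t
    rw [← W_eq] at hV
    unfold V
    rw [← W_eq]
    have hmain := hX F (toUS hF) hV Z Y hY t
    have e2 : Sf (Q F) ⌊(X : ℝ) ^ (1 / (r : ℝ))⌋₊ = Good X F r := by
      funext m
      exact propext (good_iff X F r m)
    rw [e2] at hmain
    classical
    have e3 : G X F r m t Z Y =
        ((Finset.Ioc Z (Z + Y)).filter (fun n => Good X F r n ∧ Gap (Good X F r) m t n)).card := by
      unfold G
      congr 1
      apply Finset.filter_congr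
      intro n _
      rw [gap_iff]
    rw [e3]
    convert hmain

end Pool.Agent.Results.MP_0b748d_nt.ConsecutiveGapsLaw
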