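import Mathlib
import Pool.Agent.Q263.PK.Poly

/-!
# The values `n ^ 2 - 2` at the integers with restricted digits: the constant and the gaps

Fix a base `b ≥ 2`. For `k ≥ 1` choose for every position `i < k` a set `D i` of digits, in any way,
such that two digits in `D i` have a difference without prime factors outside `b`, for example two
consecutive digits. Let `S` be the set of the integers `0 ≤ n < b ^ k` whose `i`-th digit is in
`D i` for every `i`; it may have only `2 ^ k` elements. Let `S(y)` be the set of the `n ∈ S` such that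
`n ^ 2 - 2` has no prime factor `≤ y`.

For all `Λ` and `ε > 0` there are `L`, `y₀`, `k₀`, which depend on `b`, `Λ` and `ε` only, such that
for all `k ≥ k₀`, all choices of the sets of digits and all `y ≥ y₀` with `y ^ L ≤ b ^ k`:

(1) the number of the elements of `S(y)` is

  `(1 + θ) · g · ∏_{i ≥ 1} |D i| · ∏_{p ∣ b} (1 - (1 + (2/p)) / p)⁻¹ · ∏_{p ≤ y} (1 - 1 / p) · C(y)`

with `|θ| ≤ ε`, where `g` is the number of the last digits `d ∈ D 0` such that `d ^ 2 - 2` is coprime
to `b`, and `C(y) = ∏_{2 < p ≤ y} (1 - (2/p) / (p - 1))` is the partial product of (twice) the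
constant in the conjecture for the primes `n ^ 2 - 2`;

(2) for all `T` with `x = T ∏_{p ≤ y} (1 - 1 / p) · C(y) ≤ Λ` and all finite sets `A` the proportion of
the `n ∈ S(y)` for which the number of the `t` in `(n, n + T]` such that `t ^ 2 - 2` has no prime
factor `≤ y` belongs to `A` differs from `∑_{j ∈ A} exp(-x) x ^ j / j!` by at most `ε`. In particular
the distance to the next such `t` has the exponential distribution, and the constant `C(y)` is seen
also in the gaps.
-/

set_option autoImplicit false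

namespace Pool.Agent.Results.MP_0b748d_nt.ConstantAndGaps

open Finset Polynomial
open scoped NumberTheorySymbols

/-- The integers `0 ≤ n < b ^ k` whose `i`-th digit in base `b` belongs to `D i`, for all `i < k`. -/
def Restricted (b k : ℕ) (D : Fin k → Finset ℕ) : Finset ℕ :=
  (Finset.range (b ^ k)).filter (fun n => ∀ i : Fin k, n / b ^ (i : ℕ) % b ∈ D i)

/-- Each `D i` is a set of digits, and it has two digits `c < c'` such that every prime factor of
`c' - c` divides `b`. -/
def DigitSets (b k : ℕ) (D : Fin k → Finset ℕ) : Prop :=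
  ∀ i, (∀ d ∈ D i, d < b) ∧ ∃ c ∈ D i, ∃ c' ∈ D i, c < c' ∧
    ∀ p : ℕ, p.Prime → p ∣ c' - c → p ∣ b

/-- `n ^ 2 - 2` has no prime factor `≤ y`. -/
def Rough (y n : ℕ) : Prop := ∀ p : ℕ, p.Prime → p ≤ y → ¬ (p : ℤ) ∣ (n : ℤ) ^ 2 - 2

open Classical in
/-- The set `S(y)`. -/
noncomputable def Start (b k : ℕ) (D : Fin k → Finset ℕ) (y : ℕ) : Finset ℕ :=
  (Restricted b k D).filter (fun n => Rough y n)

open Classical in
/-- The number of the `t` in `(n, n + T]` such that `t ^ 2 - 2` has no prime factor `≤ y`. -/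
noncomputable def next (y T n : ℕ) : ℕ := ((Finset.Ioc n (n + T)).filter (fun t => Rough y t)).card

/-- The product of `1 - 1 / p` over the primes `p ≤ y`. -/
noncomputable def V (y : ℕ) : ℝ := ∏ p ∈ (Finset.Icc 1 y).filter Nat.Prime, (1 - 1 / (p : ℝ))

/-- The partial product of the constant. -/
noncomputable def Cpartial (y : ℕ) : ℝ :=
  ∏ p ∈ (Finset.Icc 1 y).filter (fun p => p.Prime ∧ p ≠ 2), (1 - (J(2 | p) : ℝ) / ((p : ℝ) - 1))

/-- The number of the last digits `d` such that `d ^ 2 - 2` is coprime to `b`. -/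
def lastDigits (b k : ℕ) (D : Fin k → Finset ℕ) : ℕ :=
  (((Finset.univ : Finset (Fin k)).filter (fun i : Fin k => (i : ℕ) = 0)).biUnion
    (fun i => (D i).filter (fun d : ℕ => Int.gcd ((d : ℤ) ^ 2 - 2) b = 1))).card

/-- The product of the numbers of the elements of `D i` over the positions `i ≥ 1`. -/
def otherDigits (k : ℕ) (D : Fin k → Finset ℕ) : ℕ :=
  ∏ i ∈ (Finset.univ : Finset (Fin k)).filter (fun i : Fin k => (i : ℕ) ≠ 0), (D i).card

/-- The main term. -/
noncomputable def mainTerm (b k : ℕ) (D : Fin k → Finset ℕ) (y : ℕ) : ℝ :=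
  (lastDigits b k D : ℝ) * otherDigits k D *
    (∏ p ∈ b.primeFactors, (1 - (1 + (J(2 | p) : ℝ)) / (p : ℝ)))⁻¹ * (V y * Cpartial y)

/-- The measure of `A` for the Poisson distribution with the mean `x`. -/
noncomputable def poisson (x : ℝ) (A : Finset ℕ) : ℝ :=
  ∑ j ∈ A, Real.exp (-x) * x ^ j / (j.factorial : ℝ)

open Pool.Agent.H373R2.T7 Pool.Agent.W123.RP Pool.Agent.W123.RU Pool.Agent.TH464.PO
open Pool.Agent.W123.RU.Poly (Sys Q)
open Pool.Agent.Q263.PK

/-- the polynomial -/
noncomputable def F : ℤ[X] := X ^ 2 + C (-2 : ℤ)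

lemma F_eval (t : ℤ) : F.eval t = t ^ 2 - 2 := by
  unfold F
  simp
  ring

lemma F_monic : F.Monic := monic_X_pow_add_C (-2) (by norm_num)

lemma F_deg : F.natDegree = 2 := natDegree_X_pow_add_C

lemma F_irr : Irreducible F := by
  apply F_monic.irreducible_of_irreducible_map (Int.castRingHom ℚ)
  have h1 : F.map (Int.castRingHom ℚ) = X ^ 2 + C (-2 : ℚ) := by
    unfold F
    rw [Polynomial.map_add, Polynomial.map_pow, map_X, Polynomial.map_C]
    norm_num
  have hdeg : (F.map (Int.castRingHom ℚ)).natDegree = 2 := by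
    rw [h1]
    exact natDegree_X_pow_add_C
  apply Polynomial.irreducible_of_degree_le_three_of_not_isRoot
  · rw [hdeg]
    decide
  · intro x hx
    rw [IsRoot.def, h1] at hx
    simp only [eval_add, eval_pow, eval_X, eval_C] at hx
    have h2 : IsSquare (((2 : ℤ) : ℚ)) := ⟨x, by push_cast; linarith⟩
    have h3 : IsSquare (2 : ℤ) := Rat.isSquare_intCast_iff.1 h2
    have h4 : ¬ IsSquare (2 : ℤ) := by
      rintro ⟨r, hr⟩
      have h5 : r ≤ 1 := by nlinarith
      have h6 : -1 ≤ r := by nlinarith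
      interval_cases r <;> omega
    exact h4 h3

lemma F_sys : Sys (fun _ : Fin 1 => F) := by
  refine ⟨fun _ => F_irr, fun _ => by rw [F_deg]; norm_num, fun _ => by
    rw [F_monic.leadingCoeff]; norm_num, fun i j _ => Subsingleton.elim i j, ?_⟩
  intro p hp
  refine ⟨1, fun _ => ?_⟩
  rw [F_eval]
  norm_num
  intro h
  have := Int.eq_one_of_dvd_one (by positivity) h
  have h2 := hp.one_lt
  omega

lemma Q_iff (p m : ℕ) : Q (fun _ : Fin 1 => F) p m ↔ (p : ℤ) ∣ (m : ℤ) ^ 2 - 2 := by
  unfold Q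
  constructor
  · rintro ⟨_, h⟩
    rwa [F_eval] at h
  · intro h
    refine ⟨0, ?_⟩
    rwa [F_eval]

lemma J_two : J(2 | 2) = 0 := by
  rw [jacobiSym.eq_zero_iff_not_coprime]
  decide

open Classical in
lemma nuB_F (p : ℕ) (hp : p.Prime) : (nuB (Q (fun _ : Fin 1 => F)) p : ℝ) = 1 + (J(2 | p) : ℝ) := by
  have e : nuB (Q (fun _ : Fin 1 => F)) p =
      ((range p).filter (fun a : ℕ => (p : ℤ) ∣ (a : ℤ) ^ 2 - 2)).card := by
    unfold nuB
    congr 1
    apply filter_congr
    intro a _
    exact Q_iff p a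
  rw [e]
  rcases eq_or_ne p 2 with rfl | h2
  · rw [J_two]
    have h1 : ((range 2).filter (fun a : ℕ => ((2 : ℕ) : ℤ) ∣ (a : ℤ) ^ 2 - 2)) = {0} := by
      ext a
      rw [mem_filter, mem_range, mem_singleton]
      constructor
      · rintro ⟨h1, h3⟩
        interval_cases a
        · rfl
        · norm_num at h3
      · rintro rfl
        norm_num
    have h2 : ((range 2).filter (fun a : ℕ => ((2 : ℕ) : ℤ) ∣ (a : ℤ) ^ 2 - 2)).card = 1 := by
      rw [h1, card_singleton]
    rw [h2]
    norm_num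
  · have : Fact p.Prime := ⟨hp⟩
    have h3 := legendreSym.card_sqrts p h2 2
    rw [jacobiSym.legendreSym.to_jacobiSym] at h3
    have h4 : ((range p).filter (fun a : ℕ => (p : ℤ) ∣ (a : ℤ) ^ 2 - 2)).card =
        ({x : ZMod p | x ^ 2 = ((2 : ℤ) : ZMod p)}.toFinset).card := by
      apply Finset.card_bij (fun (a : ℕ) _ => (a : ZMod p))
      · intro a ha
        rw [Finset.mem_filter] at ha
        rw [Set.mem_toFinset, Set.mem_ofPred_eq]
        have h5 : (((a : ℤ) ^ 2 - 2 : ℤ) : ZMod p) = 0 := (ZMod.intCast_zmod_eq_zero_iff_dvd _ _).2 ha.2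
        push_cast at h5 ⊢
        linear_combination h5
      · intro a ha c hc h
        rw [Finset.mem_filter, Finset.mem_range] at ha hc
        have h5 := congrArg ZMod.val h
        rwa [ZMod.val_natCast_of_lt ha.1, ZMod.val_natCast_of_lt hc.1] at h5
      · intro x hx
        rw [Set.mem_toFinset, Set.mem_ofPred_eq] at hx
        refine ⟨x.val, ?_, ZMod.natCast_zmod_val x⟩
        rw [Finset.mem_filter, Finset.mem_range]
        refine ⟨ZMod.val_lt x, ?_⟩
        rw [← ZMod.intCast_zmod_eq_zero_iff_dvd]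
        push_cast
        rw [ZMod.natCast_zmod_val, hx]
        push_cast
        ring
    rw [h4]
    have h5 : (((({x : ZMod p | x ^ 2 = ((2 : ℤ) : ZMod p)}.toFinset).card : ℤ)) : ℝ) =
        ((J(2 | p) + 1 : ℤ) : ℝ) := by rw [h3]
    push_cast at h5 ⊢
    rw [h5]
    ring

lemma J_le (p : ℕ) : (J(2 | p) : ℝ) ≤ 1 := by
  rcases jacobiSym.trichotomy 2 p with h | h | h <;> rw [h] <;> norm_num

lemma fac_ne (p : ℕ) (hp : p.Prime) : (1 : ℝ) - (1 + (J(2 | p) : ℝ)) / p ≠ 0 := by
  rcases eq_or_ne p 2 with rfl | h2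
  · rw [J_two]
    norm_num
  · have h3 : (3 : ℝ) ≤ p := by
      have := hp.two_le
      exact_mod_cast (by omega : 3 ≤ p)
    have h4 := J_le p
    have h5 : (1 + (J(2 | p) : ℝ)) / p < 1 := by
      rw [div_lt_one (by linarith)]
      linarith
    linarith

/-- the sieve product -/
lemma V_eq (y : ℕ) : Vq (Q (fun _ : Fin 1 => F)) y = V y * Cpartial y := by
  have e4 : Vq (Q (fun _ : Fin 1 => F)) y =
      ∏ p ∈ (Finset.Icc 1 y).filter Nat.Prime, (1 - (1 + (J(2 | p) : ℝ)) / p) := by
    unfold Vq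
    apply prod_congr rfl
    intro p hp
    rw [nuB_F p (mem_pz.1 hp).2]
  have e5 : Cpartial y = ∏ p ∈ (Finset.Icc 1 y).filter Nat.Prime,
      (if p ≠ 2 then (1 - (J(2 | p) : ℝ) / ((p : ℝ) - 1)) else 1) := by
    unfold Cpartial
    rw [← Finset.prod_filter, Finset.filter_filter]
  rw [e4, e5]
  unfold V
  rw [← Finset.prod_mul_distrib]
  refine Finset.prod_congr rfl fun p hp => ?_
  rw [Finset.mem_filter] at hp
  split_ifs with h2
  · have h3 : (3 : ℝ) ≤ p := by
      have := hp.2.two_le
      exact_mod_cast (by omega : 3 ≤ p)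
    have h4 : (p : ℝ) ≠ 0 := by linarith
    have h5 : (p : ℝ) - 1 ≠ 0 := by linarith
    field_simp
    ring
  · push Not at h2
    rw [h2, J_two]
    norm_num

lemma Sf_iff (y m : ℕ) : Sf (Q (fun _ : Fin 1 => F)) y m ↔ Rough y m := by
  unfold Sf Rough
  constructor
  · intro h p hp hpy hd
    exact h p (mem_pz.2 ⟨hpy, hp⟩) ((Q_iff p m).2 hd)
  · intro h p hp hd
    exact h p (mem_pz.1 hp).2 (mem_pz.1 hp).1 ((Q_iff p m).1 hd)

open Classical in
theorem result : ∀ b : ℕ, 2 ≤ b → ∀ Λ ε : ℝ, 0 < ε →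
    ∃ L y₀ k₀ : ℕ, 1 ≤ L ∧ ∀ k : ℕ, k₀ ≤ k → ∀ D : Fin k → Finset ℕ, DigitSets b k D →
      ∀ y : ℕ, y₀ ≤ y → y ^ L ≤ b ^ k →
      |((Start b k D y).card : ℝ) - mainTerm b k D y| ≤ ε * mainTerm b k D y ∧
      ∀ T : ℕ, T * (V y * Cpartial y) ≤ Λ → ∀ A : Finset ℕ,
        |(((Start b k D y).filter (fun n => next y T n ∈ A)).card : ℝ) -
          (Start b k D y).card * poisson (T * (V y * Cpartial y)) A| ≤ ε * (Start b k D y).card := by
  intro b hb Λ ε hε
  have hNoTr := noTr_single F (by rw [F_deg]; norm_num)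
  obtain ⟨L, y₀, k₀, hL, hmain⟩ := poly_win2 hb (fun _ : Fin 1 => F) F_sys
    (fun _ : Fin 1 => F) F_sys hNoTr (fun i j t ht => hNoTr i j t ht) Λ ε hε
  obtain ⟨c, _, hQ⟩ := Poly.exists_c _ F_sys
  obtain ⟨L', k₀', hL', hlow⟩ := Fx_asy hb c ε hε
  refine ⟨L + L', max y₀ (b + 1), max k₀ k₀' + 1, by omega, ?_⟩
  intro k hk D hD y hy hyL
  have hk0 : 0 < k := by omega
  have hy1 : 1 ≤ y := by omega
  have hby : b ≤ y := by omega
  have hyL1 : y ^ L ≤ b ^ k := (Nat.pow_le_pow_right hy1 (by omega)).trans hyL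
  have hyL2 : y ^ L' ≤ b ^ k := (Nat.pow_le_pow_right hy1 (by omega)).trans hyL
  have hStart : Fx (Q (fun _ : Fin 1 => F)) y (Pool.Agent.Q263.MD.Dig b k D) = Start b k D y := by
    unfold Fx Start
    apply Finset.filter_congr
    intro n _
    exact Sf_iff y n
  constructor
  · have h1 := hlow k (by omega) D (fun i => (hD i).1) (fun i => (hD i).2) y hyL2 _ hQ
    have hX : Pool.Agent.Q263.SW.Xt b k D
        (fun p => (range p).filter (fun r => Q (fun _ : Fin 1 => F) p r)) y = mainTerm b k D y := by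
      unfold Pool.Agent.Q263.SW.Xt mainTerm
      have e1 : ∏ p ∈ (range (y + 1)).filter (fun p => p.Prime ∧ ¬ p ∣ b),
          (1 - ((((range p).filter (fun r => Q (fun _ : Fin 1 => F) p r)).card : ℕ) : ℝ) / p) =
          (∏ p ∈ b.primeFactors, (1 - (1 + (J(2 | p) : ℝ)) / (p : ℝ)))⁻¹ * (V y * Cpartial y) := by
        have e2 : ∏ p ∈ (range (y + 1)).filter (fun p => p.Prime ∧ ¬ p ∣ b),
            (1 - ((((range p).filter (fun r => Q (fun _ : Fin 1 => F) p r)).card : ℕ) : ℝ) / p) =
            ∏ p ∈ (range (y + 1)).filter (fun p => p.Prime ∧ ¬ p ∣ b),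
              (1 - (nuB (Q (fun _ : Fin 1 => F)) p : ℝ) / p) := by
          apply prod_congr rfl
          intro p _
          unfold nuB
          rfl
        rw [e2, ← V_eq]
        unfold Vq
        have h2 : b.primeFactors ⊆ pz y := by
          intro p hp
          rw [Nat.mem_primeFactors] at hp
          have := Nat.le_of_dvd (by omega) hp.2.1
          exact mem_pz.2 ⟨by omega, hp.1⟩
        have h3 : (range (y + 1)).filter (fun p => p.Prime ∧ ¬ p ∣ b) = pz y \ b.primeFactors := by
          ext p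
          rw [mem_filter, mem_range, mem_sdiff, mem_pz, Nat.mem_primeFactors]
          constructor
          · rintro ⟨h4, h5, h6⟩
            exact ⟨⟨by omega, h5⟩, fun h => h6 h.2.1⟩
          · rintro ⟨⟨h4, h5⟩, h6⟩
            exact ⟨by omega, h5, fun h => h6 ⟨h5, h, by omega⟩⟩
        rw [h3, ← prod_sdiff h2]
        have h4 : ∏ p ∈ b.primeFactors, (1 - (nuB (Q (fun _ : Fin 1 => F)) p : ℝ) / (p : ℝ)) =
            ∏ p ∈ b.primeFactors, (1 - (1 + (J(2 | p) : ℝ)) / (p : ℝ)) := by
          apply prod_congr rfl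
          intro p hp
          rw [nuB_F p (Nat.prime_of_mem_primeFactors hp)]
        rw [h4]
        have h5 : ∏ p ∈ b.primeFactors, (1 - (1 + (J(2 | p) : ℝ)) / (p : ℝ)) ≠ 0 :=
          prod_ne_zero_iff.2 fun p hp => fac_ne p (Nat.prime_of_mem_primeFactors hp)
        rw [mul_comm (∏ p ∈ pz y \ b.primeFactors, _), ← mul_assoc, inv_mul_cancel₀ h5, one_mul]
      have e2 : ((if hk : 0 < k then D ⟨0, hk⟩ else ∅).filter (fun d => ∀ p : ℕ, p.Prime → p ∣ b →
          p ≤ y → d % p ∉ (range p).filter (fun r => Q (fun _ : Fin 1 => F) p r))).card =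
          lastDigits b k D := by
        unfold lastDigits
        have e3 : (Finset.univ : Finset (Fin k)).filter (fun i : Fin k => (i : ℕ) = 0) = {⟨0, hk0⟩} := by
          ext i
          rw [mem_filter, mem_singleton]
          constructor
          · rintro ⟨_, hi⟩
            exact Fin.ext hi
          · rintro rfl
            exact ⟨mem_univ _, rfl⟩
        rw [e3, singleton_biUnion, dif_pos hk0]
        congr 1
        apply filter_congr
        intro d _
        constructor
        · intro h2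
          by_contra hne
          obtain ⟨p, hp, hpd⟩ := Nat.exists_prime_and_dvd hne
          have h5 : (p : ℤ) ∣ (Int.gcd ((d : ℤ) ^ 2 - 2) b : ℤ) := by exact_mod_cast hpd
          have h3 : (p : ℤ) ∣ (b : ℤ) := h5.trans (Int.gcd_dvd_right _ _)
          have h4 := h5.trans (Int.gcd_dvd_left _ _)
          have h3' : p ∣ b := by exact_mod_cast h3
          apply h2 p hp h3' ((Nat.le_of_dvd (by omega) h3').trans hby)
          rw [mem_filter, mem_range]
          exact ⟨Nat.mod_lt _ hp.pos, (hQ.per p d).1 ((Q_iff p d).2 h4)⟩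
        · intro h2 p hp hpb _ hm
          rw [mem_filter] at hm
          have hd := (Q_iff p d).1 ((hQ.per p d).2 hm.2)
          have h5 : (p : ℤ) ∣ (Int.gcd ((d : ℤ) ^ 2 - 2) b : ℤ) := Int.dvd_coe_gcd hd (by exact_mod_cast hpb)
          rw [h2] at h5
          have h6 : p ∣ 1 := by exact_mod_cast h5
          exact hp.one_lt.ne' (Nat.dvd_one.1 h6)
      rw [e1, e2]
      have e4 : Pool.Agent.Q263.SW.Pd D = otherDigits k D := rfl
      rw [e4]
      ring
    rw [hX, hStart] at h1
    exact h1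
  · intro T hT A
    have h := hmain k (by omega) D (fun i => (hD i).1) (fun i => (hD i).2) y (by omega) hyL1 T
      (by rw [V_eq]; exact hT) A
    rw [hStart, V_eq] at h
    have e1 : (Start b k D y).filter (fun n => Nw (Q (fun _ : Fin 1 => F)) y T n ∈ A) =
        (Start b k D y).filter (fun a => next y T a ∈ A) := by
      apply Finset.filter_congr
      intro n _
      have e2 : Nw (Q (fun _ : Fin 1 => F)) y T n = next y T n :=
        Pool.Agent.Q263.PL.Nw_eq _ _ _ _ _ (Sf_iff y)
      rw [e2]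
    rw [e1] at h
    exact h

end Pool.Agent.Results.MP_0b748d_nt.ConstantAndGaps
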