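import Pool.Agent.Q250.NP.NatRow

/-!
# `n ^ 2 - 2` almost prime, and `p ^ 2 - 2` almost prime with `p` prime: narrow progressions, uniformly in all shifts
-/

set_option autoImplicit false

namespace Pool.Agent.Results.MP_0b748d_nt.NarrowProgressions

open Finset Filter Polynomial
open Pool.Agent.Q250.NP
open Pool.Agent.Q253.Line (W NFD rt)
open Pool.Agent.Q253.Thin (SysZ IS VZ_low VZ_nonneg)
open Pool.Agent.Y843.HS (VV)

/-- the value `|y ^ 2 - c|` -/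
def val (c : ℤ) (y : ℕ) : ℕ := ((y : ℤ) ^ 2 - c).natAbs

/-- `∏ (x ^ 2 - c_i)` if `e = false`, `x ∏ (x ^ 2 - c_i)` if `e = true` -/
def form {m : ℕ} (e : Bool) (c : Fin m → ℤ) (x : ℤ) : ℤ := (if e then x else 1) * ∏ i, (x ^ 2 - c i)

/-- no prime divides all the values of `form e c` -/
def Admissible {m : ℕ} (e : Bool) (c : Fin m → ℤ) : Prop := ∀ p : ℕ, p.Prime → ∃ x : ℤ, ¬ (p : ℤ) ∣ form e c x

/-- the number of the classes `x` modulo `p` with `p ∣ form e c x` -/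
def omega {m : ℕ} (e : Bool) (c : Fin m → ℤ) (p : ℕ) : ℕ := ((range p).filter (fun x : ℕ => (p : ℤ) ∣ form e c x)).card

/-- the product of `1 - omega p / p` over the primes `p ≤ X` -/
noncomputable def dens {m : ℕ} (e : Bool) (c : Fin m → ℤ) (X : ℕ) : ℝ :=
  ∏ p ∈ (Icc 1 X).filter Nat.Prime, (1 - (omega e c p : ℝ) / p)

/-- all prime factors of all the numbers `|y ^ 2 - c_i|` are larger than `X ^ (1/t)` -/
def Rough {m : ℕ} (t X : ℕ) (c : Fin m → ℤ) (y : ℕ) : Prop :=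
  ∀ i, ∀ p : ℕ, p.Prime → p ∣ val (c i) y → (X : ℝ) ^ (1 / (t : ℝ)) < p

open Classical in
/-- the `n` in `(u, v]` for which all the numbers `|n ^ 2 - c_i|` are rough -/
noncomputable def Good {m : ℕ} (t X u v : ℕ) (c : Fin m → ℤ) : Finset ℕ := (Ioc u v).filter (Rough t X c)

open Classical in
/-- the primes `X < p < 2 X` for which all the numbers `|p ^ 2 - c_i|` are rough -/
noncomputable def GoodPrimes {m : ℕ} (t X : ℕ) (c : Fin m → ℤ) : Finset ℕ :=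
  (Ioo X (2 * X)).filter (fun p : ℕ => p.Prime ∧ Rough t X c p)

/-! ### Free arguments -/

section

variable {m : ℕ}

/-- the classes modulo `p` where `p` divides one of the values -/
def Z (c : Fin m → ℤ) (p : ℕ) : Finset ℕ := (range p).filter (fun x : ℕ => ∃ i, (p : ℤ) ∣ (x : ℤ) ^ 2 - c i)

theorem mod_iff (c : ℤ) {p : ℕ} (n : ℕ) : (p : ℤ) ∣ ((n % p : ℕ) : ℤ) ^ 2 - c ↔ (p : ℤ) ∣ (n : ℤ) ^ 2 - c := by
  have h1 : ((n % p : ℕ) : ℤ) ≡ (n : ℤ) [ZMOD p] := by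
    rw [Int.natCast_mod]
    exact Int.mod_modEq _ _
  have h2 : ((n % p : ℕ) : ℤ) ^ 2 - c ≡ (n : ℤ) ^ 2 - c [ZMOD p] := (h1.pow 2).sub_right c
  exact h2.dvd_iff

theorem mem_Z (c : Fin m → ℤ) {p : ℕ} (hp : 0 < p) (n : ℕ) : n % p ∈ Z c p ↔ ∃ i, p ∣ val (c i) n := by
  unfold Z
  rw [mem_filter, mem_range]
  have h : ∀ i, (p ∣ val (c i) n ↔ (p : ℤ) ∣ ((n % p : ℕ) : ℤ) ^ 2 - c i) := by
    intro i
    rw [mod_iff]
    unfold val
    exact Int.natCast_dvd.symm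
  constructor
  · rintro ⟨_, i, hi⟩
    exact ⟨i, (h i).2 hi⟩
  · rintro ⟨i, hi⟩
    exact ⟨Nat.mod_lt _ hp, i, (h i).1 hi⟩

theorem roots_le (c : ℤ) {p : ℕ} (hp : p.Prime) : ((range p).filter (fun x : ℕ => (p : ℤ) ∣ (x : ℤ) ^ 2 - c)).card ≤ 2 := by
  classical
  rcases ((range p).filter (fun x : ℕ => (p : ℤ) ∣ (x : ℤ) ^ 2 - c)).eq_empty_or_nonempty with h | ⟨x₀, hx₀⟩
  · rw [h]
    simp
  · refine (card_le_card (t := {x₀, p - x₀}) ?_).trans card_le_two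
    intro x hx
    rw [mem_filter, mem_range] at hx hx₀
    rw [mem_insert, mem_singleton]
    have h1 : (p : ℤ) ∣ ((x : ℤ) - x₀) * ((x : ℤ) + x₀) := by
      have h2 : ((x : ℤ) - x₀) * ((x : ℤ) + x₀) = ((x : ℤ) ^ 2 - c) - ((x₀ : ℤ) ^ 2 - c) := by ring
      rw [h2]
      exact dvd_sub hx.2 hx₀.2
    rcases (Nat.prime_iff_prime_int.1 hp).dvd_or_dvd h1 with h3 | h3
    · left
      have h4 : (x : ℤ) ≡ x₀ [ZMOD p] := (Int.modEq_iff_dvd.2 (by
        have : (x₀ : ℤ) - x = -((x : ℤ) - x₀) := by ring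
        rw [this]
        exact h3.neg_right))
      have h5 : x ≡ x₀ [MOD p] := Int.natCast_modEq_iff.1 h4
      exact h5.eq_of_lt_of_lt hx.1 hx₀.1
    · have h4 : p ∣ x + x₀ := by exact_mod_cast h3
      obtain ⟨k, hk⟩ := h4
      have h5 : k < 2 := by
        by_contra hcon
        have : p * 2 ≤ p * k := Nat.mul_le_mul_left _ (by omega)
        omega
      interval_cases k
      · left; omega
      · right; omega

theorem sys {c : Fin m → ℤ} (h : Admissible false c) : SysZ (2 * m) (Z c) := by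
  classical
  constructor
  · intro p hp
    have h1 : Z c p ⊆ (univ : Finset (Fin m)).biUnion (fun i => (range p).filter (fun x : ℕ => (p : ℤ) ∣ (x : ℤ) ^ 2 - c i)) := by
      intro n hn
      unfold Z at hn
      rw [mem_filter] at hn
      obtain ⟨h1, i, hi⟩ := hn
      rw [mem_biUnion]
      exact ⟨i, mem_univ _, mem_filter.2 ⟨h1, hi⟩⟩
    refine (card_le_card h1).trans (card_biUnion_le.trans ?_)
    calc _ ≤ ∑ _i : Fin m, 2 := sum_le_sum fun i _ => roots_le (c i) hp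
      _ = 2 * m := by simp [mul_comm]
  · intro p hp
    obtain ⟨x, hx⟩ := h p hp
    have hpz : (0 : ℤ) < p := by exact_mod_cast hp.pos
    obtain ⟨y, hy⟩ : ∃ y : ℕ, (y : ℤ) = x % p := ⟨(x % p).toNat, Int.toNat_of_nonneg (Int.emod_nonneg _ hpz.ne')⟩
    have hyp : y < p := by
      have := Int.emod_lt_of_pos x hpz
      rw [← hy] at this
      exact_mod_cast this
    have h1 : Z c p ⊂ range p := by
      refine ⟨filter_subset _ _, fun hsub => ?_⟩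
      have h2 := hsub (mem_range.2 hyp)
      unfold Z at h2
      rw [mem_filter] at h2
      obtain ⟨_, i, hi⟩ := h2
      apply hx
      unfold form
      rw [if_neg (by simp), one_mul]
      refine Dvd.dvd.trans ?_ (dvd_prod_of_mem _ (mem_univ i))
      have h3 : (y : ℤ) ≡ x [ZMOD p] := by rw [hy]; exact Int.mod_modEq _ _
      exact (((h3.pow 2).sub_right (c i)).dvd_iff).1 hi
    have := card_lt_card h1
    rwa [card_range] at this
  · intro p _ x hx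
    unfold Z at hx
    rw [mem_filter, mem_range] at hx
    exact hx.1

theorem Good_eq (t X u v : ℕ) (c : Fin m → ℤ) : Good t X u v c = IS t X u v (Z c) := by
  classical
  ext n
  unfold Good IS
  rw [mem_filter, mem_filter]
  refine and_congr_right fun _ => ?_
  unfold Rough
  constructor
  · intro h q hq hqX hmem
    rw [mem_Z c hq.pos] at hmem
    obtain ⟨i, hi⟩ := hmem
    exact absurd (h i q hq hi) (not_lt.2 hqX)
  · intro h i p hp hpd
    by_contra hcon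
    push Not at hcon
    exact h p hp hcon ((mem_Z c hp.pos n).2 ⟨i, hpd⟩)

theorem dens_false (c : Fin m → ℤ) (X : ℕ) : dens false c X = VV (Z c) 0 X := by
  unfold dens VV Pool.Agent.Y843.HS.Pr
  have h1 : Icc 1 X = Ioc 0 X := by
    ext p
    rw [mem_Icc, mem_Ioc]
    omega
  rw [h1]
  apply prod_congr rfl
  intro p hp
  have hpp := (mem_filter.1 hp).2
  unfold omega Z form
  have h2 : (range p).filter (fun x : ℕ => (p : ℤ) ∣ (if false = true then (x : ℤ) else 1) * ∏ i, ((x : ℤ) ^ 2 - c i)) =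
      (range p).filter (fun x : ℕ => ∃ i, (p : ℤ) ∣ (x : ℤ) ^ 2 - c i) := by
    apply filter_congr
    intro x _
    rw [if_neg (by simp), one_mul]
    constructor
    · intro h3
      obtain ⟨i, _, hi⟩ := (Prime.dvd_finsetProd_iff (Nat.prime_iff_prime_int.1 hpp) _).1 h3
      exact ⟨i, hi⟩
    · rintro ⟨i, hi⟩
      exact hi.trans (dvd_prod_of_mem _ (mem_univ i))
  rw [h2]

end

/-! ### Prime arguments -/

section

variable {m : ℕ}

/-- the polynomials -/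
noncomputable def G (c : Fin m → ℤ) (i : Fin m) : ℤ[X] := X ^ 2 - C (c i)

theorem eval_G (c : Fin m → ℤ) (i : Fin m) (x : ℤ) : (G c i).eval x = x ^ 2 - c i := by
  unfold G
  simp

theorem eval_all (c : Fin m → ℤ) (x : ℤ) : ((C (1 : ℤ) * X + C (0 : ℤ)) * ∏ i, G c i).eval x = form true c x := by
  unfold form
  rw [eval_mul, eval_prod, if_pos rfl]
  simp only [eval_G, eval_add, eval_mul, eval_C, eval_X]
  ring

theorem dens_true (c : Fin m → ℤ) (n : ℕ) : dens true c n = W ((C (1 : ℤ) * X + C (0 : ℤ)) * ∏ i, G c i) n := by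
  unfold dens W
  apply prod_congr rfl
  intro p _
  unfold omega rt
  simp only [eval_all]

theorem rep {k n : ℕ} {c : Fin m → ℤ} (h : Admissible true c) (hn : 5 ≤ n)
    (hs : ∀ i, -(n : ℤ) ^ k ≤ c i ∧ c i ≤ (n : ℤ) ^ 2) :
    Rep (2 * m) (k + 3) n 1 0 (fun y => y) (fun i y => val (c i) y) (G c) := by
  constructor
  · refine (natDegree_prod_le _ _).trans ?_
    calc _ ≤ ∑ _i : Fin m, 2 := by
          apply sum_le_sum
          intro i _
          unfold G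
          compute_degree
      _ = 2 * m := by simp [mul_comm]
  · intro p hp
    obtain ⟨x, hx⟩ := h p hp
    exact ⟨x, by rw [eval_all]; exact hx⟩
  · intro y h1 h2
    exact ⟨by simp, h1⟩
  · intro y h1 h2 i
    rw [eval_G]
    rfl
  · intro y h1 h2 i
    obtain ⟨h3, h4⟩ := hs i
    have h1' : (n : ℤ) + 1 ≤ y := by exact_mod_cast h1
    have h2' : (y : ℤ) ≤ 2 * n := by exact_mod_cast h2.le
    have hn' : (5 : ℤ) ≤ n := by exact_mod_cast hn
    have e1 : (n : ℤ) ^ 2 + 2 ≤ (y : ℤ) ^ 2 := by nlinarith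
    have e2 : (y : ℤ) ^ 2 ≤ 4 * (n : ℤ) ^ 2 := by nlinarith
    have e3 : 0 < (y : ℤ) ^ 2 - c i := by linarith
    have e4 : ((val (c i) y : ℕ) : ℤ) = (y : ℤ) ^ 2 - c i := by
      unfold val
      rw [Int.natCast_natAbs, abs_of_pos e3]
    have e5 : (1 : ℤ) ≤ (n : ℤ) ^ k := by exact_mod_cast Nat.one_le_pow _ _ (by omega)
    constructor
    · have : (2 : ℤ) ≤ (val (c i) y : ℕ) := by rw [e4]; linarith
      exact_mod_cast this
    · have : ((val (c i) y : ℕ) : ℤ) ≤ (n : ℤ) ^ (k + 3) := by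
        rw [e4]
        have e6 : 4 * (n : ℤ) ^ 2 + 1 ≤ (n : ℤ) ^ 3 := by nlinarith
        calc (y : ℤ) ^ 2 - c i ≤ 4 * (n : ℤ) ^ 2 + (n : ℤ) ^ k := by linarith
          _ ≤ (n : ℤ) ^ k * (4 * (n : ℤ) ^ 2 + 1) := by nlinarith
          _ ≤ (n : ℤ) ^ k * (n : ℤ) ^ 3 := mul_le_mul_of_nonneg_left e6 (by linarith)
          _ = (n : ℤ) ^ (k + 3) := by rw [pow_add]
      exact_mod_cast this

theorem GoodPrimes_eq (t n : ℕ) (c : Fin m → ℤ) : GoodPrimes t n c = T (fun y => y) (fun i y => val (c i) y) t n := by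
  classical
  ext y
  unfold GoodPrimes T
  rw [mem_filter, mem_filter]
  exact Iff.rfl

end

/-- the question: the shift `2` is admissible in both senses -/
theorem adm_two (e : Bool) : Admissible e (fun _ : Fin 1 => 2) := by
  intro p hp
  refine ⟨1, ?_⟩
  unfold form
  rw [Fin.prod_univ_one, ite_self, one_mul]
  norm_num
  intro h
  have h8 : p ∣ 1 := by exact_mod_cast h
  exact hp.one_lt.ne' (Nat.dvd_one.1 h8)

theorem val_one_three {c : ℤ} {a d : ℕ} (hd : 1 ≤ d) (h0 : val c a = 1) (h2 : val c (a + 2 * d) = 1) : False := by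
  unfold val at h0 h2
  have hd' : (1 : ℤ) ≤ d := by exact_mod_cast hd
  have ha : (0 : ℤ) ≤ a := Int.natCast_nonneg a
  push_cast at h2
  have h3 : ((a : ℤ) + 2 * d) ^ 2 - (a : ℤ) ^ 2 ≤ 2 := by omega
  nlinarith

/-- **Free arguments.** -/
theorem free (m k : ℕ) (hm : 1 ≤ m) : ∃ t : ℕ, 1 ≤ t ∧ ∃ c₀ : ℝ, 0 < c₀ ∧
    (∀ θ : ℝ, 0 < θ → ∃ X₀ : ℕ, ∀ X : ℕ, X₀ ≤ X → ∀ c : Fin m → ℤ, Admissible false c → ∀ u v : ℕ, θ * X ≤ (v : ℝ) - u →
      c₀ / Real.log X ^ (2 * m) ≤ dens false c X ∧ c₀ * (((v : ℝ) - u) * dens false c X) ≤ ((Good t X u v c).card : ℝ)) ∧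
    (∀ (L : ℕ) (θ δ : ℝ), 0 < θ → 0 < δ → ∃ D X₀ : ℕ, ∀ X : ℕ, X₀ ≤ X → ∀ c : Fin m → ℤ, Admissible false c →
      ∀ u v : ℕ, v ≤ X → θ * X ≤ (v : ℝ) - u → ∀ S ⊆ Good t X u v c, δ * ((Good t X u v c).card : ℝ) ≤ S.card →
        ∃ n d : ℕ, 1 ≤ d ∧ (d : ℝ) ≤ Real.log X ^ D ∧ ∀ j < L, n + j * d ∈ S) ∧
    (∀ (L h : ℕ) (θ : ℝ), 0 < θ → 1 ≤ h → ∃ D X₀ : ℕ, ∀ X : ℕ, X₀ ≤ X → ∀ c : Fin m → ℤ, Admissible false c →
      (∀ i, |c i| ≤ (X : ℤ) ^ k) → ∀ u v : ℕ, v ≤ X → θ * X ≤ (v : ℝ) - u → ∀ col : ℕ → Fin h,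
        ∃ (s : Fin m → ℕ) (κ : Fin h) (n d : ℕ), (∀ i, 1 ≤ s i ∧ s i ≤ t * (k + 3)) ∧ 1 ≤ d ∧ (d : ℝ) ≤ Real.log X ^ D ∧
          ∀ j < L, n + j * d ∈ Good t X u v c ∧ col (n + j * d) = κ ∧
            ∀ i, (val (c i) (n + j * d)).primeFactorsList.length = s i) := by
  classical
  obtain ⟨t, ht, c, hc, h1, h2, h3⟩ := types (2 * m) (by omega)
  obtain ⟨c', hc', hlow⟩ := VZ_low (2 * m) (by omega)
  refine ⟨t, ht, min c c', lt_min hc hc', ?_, ?_, ?_⟩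
  · intro θ hθ
    obtain ⟨X₀, hX₀⟩ := h1 θ hθ
    refine ⟨max X₀ 2, fun X hX a ha u v huv => ?_⟩
    have g1 : X₀ ≤ X := (le_max_left _ _).trans hX
    have g2 : 2 ≤ X := (le_max_right _ _).trans hX
    have hX1 : (1 : ℝ) < X := by exact_mod_cast g2
    have hlog : 0 < Real.log X := Real.log_pos hX1
    refine ⟨?_, ?_⟩
    · rw [dens_false]
      refine le_trans ?_ (hlow X g2 _ (sys ha))
      exact div_le_div_of_nonneg_right (min_le_right _ _) (by positivity)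
    · rw [Good_eq, dens_false]
      refine le_trans ?_ (hX₀ X g1 _ (sys ha) u v huv)
      apply mul_le_mul_of_nonneg_right (min_le_left _ _)
      exact mul_nonneg (le_trans (by positivity) huv) (VZ_nonneg (sys ha) 0 X)
  · intro L θ δ hθ hδ
    obtain ⟨D, X₀, hX₀⟩ := h2 L θ δ hθ hδ
    refine ⟨D, X₀, fun X hX a ha u v hv huv S hS hSc => ?_⟩
    rw [Good_eq] at hS hSc
    exact hX₀ X hX _ (sys ha) u v (by omega) huv S hS hSc
  · intro L h θ hθ hh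
    obtain ⟨K, hK⟩ : ∃ K : Finset ((Fin m → ℕ) × Fin h), K = (Fintype.piFinset (fun _ : Fin m => Icc 0 (t * (k + 3)))) ×ˢ univ :=
      ⟨_, rfl⟩
    have hKne : K.Nonempty := by
      rw [hK]
      refine Finset.Nonempty.product ?_ ⟨⟨0, hh⟩, mem_univ _⟩
      exact ⟨fun _ => 0, Fintype.mem_piFinset.2 fun _ => mem_Icc.2 ⟨le_rfl, Nat.zero_le _⟩⟩
    obtain ⟨D, X₀, hX₀⟩ := h3 (L + 3) K.card θ hθ
    refine ⟨D, max X₀ (2 ^ t), fun X hX a ha hs u v hv huv col => ?_⟩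
    have g1 : X₀ ≤ X := (le_max_left _ _).trans hX
    have g2 : 2 ^ t ≤ X := (le_max_right _ _).trans hX
    have g3 : 2 ≤ X := (Nat.le_self_pow (by omega) 2).trans g2
    have ht0 : (0 : ℝ) < t := by exact_mod_cast ht
    have hXr : (2 : ℝ) ≤ X := by exact_mod_cast g3
    have hz2 : (2 : ℝ) ≤ (X : ℝ) ^ (1 / (t : ℝ)) := by
      calc (2 : ℝ) = ((2 : ℝ) ^ t) ^ (1 / (t : ℝ)) := by
            rw [← Real.rpow_natCast, ← Real.rpow_mul (by norm_num), mul_one_div_cancel ht0.ne', Real.rpow_one]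
        _ ≤ _ := Real.rpow_le_rpow (by positivity) (by exact_mod_cast g2) (by positivity)
    have hzt : ((X : ℝ) ^ (1 / (t : ℝ))) ^ t = X := by
      rw [← Real.rpow_natCast, ← Real.rpow_mul (by positivity), one_div_mul_cancel ht0.ne', Real.rpow_one]
    have hne : ∀ n ∈ IS t X u v (Z a), ∀ i, val (a i) n ≠ 0 := by
      intro n hn i h0
      rw [← Good_eq] at hn
      unfold Good at hn
      have h4 := (mem_filter.1 hn).2 i 2 Nat.prime_two (by rw [h0]; exact dvd_zero 2)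
      have h5 : ((2 : ℕ) : ℝ) = 2 := by norm_num
      rw [h5] at h4
      linarith
    have hlen : ∀ n ∈ IS t X u v (Z a), ∀ i, (val (a i) n).primeFactorsList.length ≤ t * (k + 3) := by
      intro n hn i
      have h0 := hne n hn i
      rw [← Good_eq] at hn
      unfold Good at hn
      rw [mem_filter, mem_Ioc] at hn
      obtain ⟨⟨n1, n2⟩, n3⟩ := hn
      refine length_le h0 t (k + 3) (by linarith) hzt.ge (by linarith) ?_ (n3 i)
      have h4 := hs i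
      have hnX : (n : ℤ) ≤ X := by exact_mod_cast n2.trans hv
      have hX2 : (2 : ℤ) ≤ X := by exact_mod_cast g3
      have e5 : (1 : ℤ) ≤ (X : ℤ) ^ k := by exact_mod_cast Nat.one_le_pow _ _ (by omega)
      have h5 : ((val (a i) n : ℕ) : ℤ) ≤ (X : ℤ) ^ (k + 3) := by
        unfold val
        rw [Int.natCast_natAbs]
        have e6 : (X : ℤ) ^ 2 + 1 ≤ (X : ℤ) ^ 3 := by nlinarith
        have e7 : (n : ℤ) ^ 2 ≤ (X : ℤ) ^ 2 := pow_le_pow_left₀ (Int.natCast_nonneg n) hnX 2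
        calc |(n : ℤ) ^ 2 - a i| ≤ |(n : ℤ) ^ 2| + |a i| := abs_sub _ _
          _ ≤ (X : ℤ) ^ 2 + (X : ℤ) ^ k := by
              rw [abs_of_nonneg (sq_nonneg (n : ℤ))]
              linarith
          _ ≤ (X : ℤ) ^ k * ((X : ℤ) ^ 2 + 1) := by nlinarith [sq_nonneg (X : ℤ)]
          _ ≤ (X : ℤ) ^ k * (X : ℤ) ^ 3 := mul_le_mul_of_nonneg_left e6 (by linarith)
          _ = (X : ℤ) ^ (k + 3) := by rw [pow_add]
      have h6 : val (a i) n ≤ X ^ (k + 3) := by exact_mod_cast h5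
      exact_mod_cast h6
    obtain ⟨κ, hκ, n, d, hd1, hd2, h4⟩ := hX₀ X g1 _ (sys ha) u v (by omega) huv ((Fin m → ℕ) × Fin h) K
      (fun n => (fun i => (val (a i) n).primeFactorsList.length, col n)) le_rfl hKne (by
        intro n hn
        rw [hK, mem_product, Fintype.mem_piFinset]
        exact ⟨fun i => mem_Icc.2 ⟨Nat.zero_le _, hlen n hn i⟩, mem_univ _⟩)
    rw [hK, mem_product, Fintype.mem_piFinset] at hκ
    refine ⟨κ.1, κ.2, n, d, fun i => ⟨?_, (mem_Icc.1 (hκ.1 i)).2⟩, hd1, hd2, fun j hj => ?_⟩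
    · by_contra hcon
      have hz : ∀ j < L + 3, val (a i) (n + j * d) = 1 := by
        intro j hj
        obtain ⟨h5, h6⟩ := h4 j hj
        have h7 : (val (a i) (n + j * d)).primeFactorsList.length = κ.1 i := by rw [← h6]
        have h8 : (val (a i) (n + j * d)).primeFactorsList = [] := List.length_eq_zero_iff.1 (by omega)
        rw [Nat.primeFactorsList_eq_nil] at h8
        exact h8.resolve_left (hne _ h5 i)
      have h0 := hz 0 (by omega)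
      rw [zero_mul, add_zero] at h0
      exact val_one_three hd1 h0 (hz 2 (by omega))
    · obtain ⟨h5, h6⟩ := h4 j (by omega)
      rw [← Good_eq] at h5
      refine ⟨h5, by rw [← h6], fun i => by rw [← h6]⟩

/-- **Prime arguments.** -/
theorem primes (m k : ℕ) : ∃ t : ℕ, 1 ≤ t ∧ ∃ c₀ : ℝ, 0 < c₀ ∧
    (∃ X₀ : ℕ, ∀ X : ℕ, X₀ ≤ X → ∀ c : Fin m → ℤ, Admissible true c → (∀ i, -(X : ℤ) ^ k ≤ c i ∧ c i ≤ (X : ℤ) ^ 2) →
      c₀ / Real.log X ^ (2 * m + 1) ≤ dens true c X ∧ c₀ * (X * dens true c X) ≤ ((GoodPrimes t X c).card : ℝ)) ∧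
    (∀ (L : ℕ) (δ : ℝ), 0 < δ → ∃ D X₀ : ℕ, ∀ X : ℕ, X₀ ≤ X → ∀ c : Fin m → ℤ, Admissible true c →
      (∀ i, -(X : ℤ) ^ k ≤ c i ∧ c i ≤ (X : ℤ) ^ 2) → ∀ S ⊆ GoodPrimes t X c, δ * ((GoodPrimes t X c).card : ℝ) ≤ S.card →
        ∃ n d : ℕ, 1 ≤ d ∧ (d : ℝ) ≤ Real.log X ^ D ∧ ∀ j < L, n + j * d ∈ S) ∧
    (∀ (L h : ℕ), 1 ≤ h → ∃ D X₀ : ℕ, ∀ X : ℕ, X₀ ≤ X → ∀ c : Fin m → ℤ, Admissible true c →
      (∀ i, -(X : ℤ) ^ k ≤ c i ∧ c i ≤ (X : ℤ) ^ 2) → ∀ col : ℕ → Fin h,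
        ∃ (s : Fin m → ℕ) (κ : Fin h) (n d : ℕ), (∀ i, 1 ≤ s i ∧ s i ≤ t * (k + 3)) ∧ 1 ≤ d ∧ (d : ℝ) ≤ Real.log X ^ D ∧
          ∀ j < L, n + j * d ∈ GoodPrimes t X c ∧ col (n + j * d) = κ ∧
            ∀ i, (val (c i) (n + j * d)).primeFactorsList.length = s i) := by
  classical
  obtain ⟨t, ht, H⟩ := natRow m (2 * m) (k + 3)
  obtain ⟨c, hc, ⟨N1, h1⟩, h2, h3⟩ := H 1 0 (by norm_num)
  refine ⟨t, ht, c, hc, ⟨max N1 5, fun n hn a ha hs => ?_⟩, fun L δ hδ => ?_, fun L q hq => ?_⟩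
  · rw [dens_true, GoodPrimes_eq]
    exact h1 n ((le_max_left _ _).trans hn) _ _ _ (rep ha ((le_max_right _ _).trans hn) hs)
  · obtain ⟨D, N, h4⟩ := h2 L δ hδ
    refine ⟨D, max N 5, fun n hn a ha hs S hS hSc => ?_⟩
    rw [GoodPrimes_eq] at hS hSc
    exact h4 n ((le_max_left _ _).trans hn) _ _ _ (rep ha ((le_max_right _ _).trans hn) hs) S hS hSc
  · obtain ⟨D, N, h4⟩ := h3 L q hq
    refine ⟨D, max N 5, fun n hn a ha hs col => ?_⟩
    obtain ⟨s, b, x, d, g1, g2, g3, g4⟩ := h4 n ((le_max_left _ _).trans hn) _ _ _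
      (rep ha ((le_max_right _ _).trans hn) hs) col
    refine ⟨s, b, x, d, g1, g2, g3, ?_⟩
    rw [GoodPrimes_eq]
    exact g4

/-- **Narrow progressions of `n` with `|n ^ 2 - c_i|` almost prime and of primes `p` with `|p ^ 2 - c_i|` almost prime, uniformly
in all admissible vectors of shifts.** The question is about the shift `2`, which is admissible for free and for prime arguments.
For `m ≥ 1` and `k` there are `t ≥ 1` and `c₀ > 0` with the following properties.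

Free arguments: (1) the count in all intervals `(u, v]` of length at least `θ X`; (2) the dense subsets contain progressions of
length `L` and difference at most `log ^ D X`; (3) for every colouring there are such progressions of one colour along which
all the `|n ^ 2 - c_i|` have a constant number of prime factors.

Prime arguments: (1), (2), (3) for the primes `p` between `X` and `2 X`. -/
theorem result (m k : ℕ) (hm : 1 ≤ m) : (∀ e, Admissible e (fun _ : Fin 1 => 2)) ∧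
    (∃ t : ℕ, 1 ≤ t ∧ ∃ c₀ : ℝ, 0 < c₀ ∧
    (∀ θ : ℝ, 0 < θ → ∃ X₀ : ℕ, ∀ X : ℕ, X₀ ≤ X → ∀ c : Fin m → ℤ, Admissible false c → ∀ u v : ℕ, θ * X ≤ (v : ℝ) - u →
      c₀ / Real.log X ^ (2 * m) ≤ dens false c X ∧ c₀ * (((v : ℝ) - u) * dens false c X) ≤ ((Good t X u v c).card : ℝ)) ∧
    (∀ (L : ℕ) (θ δ : ℝ), 0 < θ → 0 < δ → ∃ D X₀ : ℕ, ∀ X : ℕ, X₀ ≤ X → ∀ c : Fin m → ℤ, Admissible false c →
      ∀ u v : ℕ, v ≤ X → θ * X ≤ (v : ℝ) - u → ∀ S ⊆ Good t X u v c, δ * ((Good t X u v c).card : ℝ) ≤ S.card →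
        ∃ n d : ℕ, 1 ≤ d ∧ (d : ℝ) ≤ Real.log X ^ D ∧ ∀ j < L, n + j * d ∈ S) ∧
    (∀ (L h : ℕ) (θ : ℝ), 0 < θ → 1 ≤ h → ∃ D X₀ : ℕ, ∀ X : ℕ, X₀ ≤ X → ∀ c : Fin m → ℤ, Admissible false c →
      (∀ i, |c i| ≤ (X : ℤ) ^ k) → ∀ u v : ℕ, v ≤ X → θ * X ≤ (v : ℝ) - u → ∀ col : ℕ → Fin h,
        ∃ (s : Fin m → ℕ) (κ : Fin h) (n d : ℕ), (∀ i, 1 ≤ s i ∧ s i ≤ t * (k + 3)) ∧ 1 ≤ d ∧ (d : ℝ) ≤ Real.log X ^ D ∧
          ∀ j < L, n + j * d ∈ Good t X u v c ∧ col (n + j * d) = κ ∧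
            ∀ i, (val (c i) (n + j * d)).primeFactorsList.length = s i)) ∧
    (∃ t : ℕ, 1 ≤ t ∧ ∃ c₀ : ℝ, 0 < c₀ ∧
    (∃ X₀ : ℕ, ∀ X : ℕ, X₀ ≤ X → ∀ c : Fin m → ℤ, Admissible true c → (∀ i, -(X : ℤ) ^ k ≤ c i ∧ c i ≤ (X : ℤ) ^ 2) →
      c₀ / Real.log X ^ (2 * m + 1) ≤ dens true c X ∧ c₀ * (X * dens true c X) ≤ ((GoodPrimes t X c).card : ℝ)) ∧
    (∀ (L : ℕ) (δ : ℝ), 0 < δ → ∃ D X₀ : ℕ, ∀ X : ℕ, X₀ ≤ X → ∀ c : Fin m → ℤ, Admissible true c →
      (∀ i, -(X : ℤ) ^ k ≤ c i ∧ c i ≤ (X : ℤ) ^ 2) → ∀ S ⊆ GoodPrimes t X c, δ * ((GoodPrimes t X c).card : ℝ) ≤ S.card →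
        ∃ n d : ℕ, 1 ≤ d ∧ (d : ℝ) ≤ Real.log X ^ D ∧ ∀ j < L, n + j * d ∈ S) ∧
    (∀ (L h : ℕ), 1 ≤ h → ∃ D X₀ : ℕ, ∀ X : ℕ, X₀ ≤ X → ∀ c : Fin m → ℤ, Admissible true c →
      (∀ i, -(X : ℤ) ^ k ≤ c i ∧ c i ≤ (X : ℤ) ^ 2) → ∀ col : ℕ → Fin h,
        ∃ (s : Fin m → ℕ) (κ : Fin h) (n d : ℕ), (∀ i, 1 ≤ s i ∧ s i ≤ t * (k + 3)) ∧ 1 ≤ d ∧ (d : ℝ) ≤ Real.log X ^ D ∧
          ∀ j < L, n + j * d ∈ GoodPrimes t X c ∧ col (n + j * d) = κ ∧
            ∀ i, (val (c i) (n + j * d)).primeFactorsList.length = s i)) :=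
  ⟨adm_two, free m k hm, primes m k⟩

end Pool.Agent.Results.MP_0b748d_nt.NarrowProgressions
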